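import Pool.Agent.H58.Hx3

namespace Pool.Agent.Results.MP_3d4caa_nt.Exact
open Pool.Agent.H58.Hx

theorem result (Qb : Type) [Field Qb] [CharZero Qb] [Algebra.IsAlgebraic ℚ Qb] [IsAlgClosed Qb]
    (N d : ℕ) (hN : 2 ≤ N) (hd : 2 ≤ d) :
    muBar Qb N d = ((((d : ℝ) ^ (N - 1))⁻¹ : ℝ) : EReal) := by
  obtain ⟨n, rfl⟩ : ∃ n, N = n + 1 := ⟨N - 1, by omega⟩
  exact le_antisymm (iInf₂_le_of_le _ (ex_dom hN hd) (upper hd))
    (le_iInf₂ fun f hf => lower (by omega) hf)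

end Pool.Agent.Results.MP_3d4caa_nt.Exact
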